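import Pool.Agent.Lib.ALLY_h54.Res
import Pool.Agent.Lib.ALLY.Unr
import Pool.Agent.Lib.ALLO.Defs

/-!
# Block Y in any rank, row AMB: embedded local uniformization in dimension `n - 1` gives `LUsR`
-/

set_option autoImplicit false

open Polynomial

namespace Pool.Agent.ALLY

open Pool.Agent.TAO (OVal VPos Ctx0 CtxR)

universe u w

namespace AmbH54

section

variable {k Ω : Type u} [Field k] [Field Ω] [Algebra k Ω] {𝕂 : Type w} [Field 𝕂] [LinearOrder 𝕂]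
  [IsStrictOrderedRing 𝕂] {v : OVal 𝕂 Ω} {d : ℕ}

/-- A root of a monic polynomial with coefficients of value `≥ 0` has value `≥ 0`. -/
theorem ge_of_root {P : Polynomial Ω} (hP : P.Monic) (hc : ∀ i, v.Ge 0 (P.coeff i)) {a : Ω}
    (ha : P.eval a = 0) : v.Ge 0 a := by
  intro ha0
  by_contra hneg
  rw [not_le] at hneg
  rw [eval_eq_sum_range, Finset.sum_range_succ] at ha
  have h2 : P.coeff P.natDegree = 1 := hP
  rw [h2, one_mul] at ha
  have h3 : ∀ m, m ≤ P.natDegree → v.Ge (((P.natDegree : 𝕂) - 1) * v a)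
      (∑ i ∈ Finset.range m, P.coeff i * a ^ i) := by
    intro m hm
    induction m with
    | zero => simp only [Finset.range_zero, Finset.sum_empty]; exact OVal.Ge.zero
    | succ m ih =>
      rw [Finset.sum_range_succ]
      refine OVal.Ge.add (ih (by omega)) ?_
      intro hne
      have h4 : P.coeff m ≠ 0 := left_ne_zero_of_mul hne
      have h5 : 0 ≤ v (P.coeff m) := hc m h4
      rw [v.map_mul h4 (pow_ne_zero _ ha0), v.map_pow ha0]
      have h6 : (m : 𝕂) ≤ (P.natDegree : 𝕂) - 1 := by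
        have : (m : 𝕂) + 1 ≤ P.natDegree := by exact_mod_cast hm
        linarith
      have h7 := mul_le_mul_of_nonpos_right h6 hneg.le
      linarith
  have h4 := h3 _ le_rfl
  have h5 : ∑ i ∈ Finset.range P.natDegree, P.coeff i * a ^ i =
      -(a ^ P.natDegree) := eq_neg_of_add_eq_zero_left ha
  rw [h5] at h4
  have h6 := h4 (neg_ne_zero.2 (pow_ne_zero _ ha0))
  rw [v.map_neg _ (pow_ne_zero _ ha0), v.map_pow ha0] at h6
  nlinarith

/-- The elements of `S.K` are quotients of elements of `S.P`. -/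
theorem exists_div {S : RD k v d} {a : Ω} (ha : a ∈ S.K) :
    ∃ u ∈ S.P, ∃ w ∈ S.P, w ≠ 0 ∧ a = u / w := by
  unfold RD.K at ha
  induction ha using IntermediateField.adjoin_induction with
  | mem x hx =>
    rcases hx with ⟨γ, hγ, rfl⟩ | ⟨i, rfl⟩
    · rcases le_total 0 γ with h0 | h0
      · exact ⟨S.χ γ, Algebra.subset_adjoin (Or.inl ⟨γ, ⟨hγ, h0⟩, rfl⟩), 1, one_mem _,
          one_ne_zero, (div_one _).symm⟩
      · have h1 : S.χ γ * S.χ (-γ) = 1 := by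
          have h2 := S.χ_add γ hγ (-γ) (S.Γ.neg_mem hγ)
          have h3 := S.χ_add 0 S.Γ.zero_mem 0 S.Γ.zero_mem
          rw [add_zero] at h3
          have h4 : S.χ 0 = 1 := (mul_right_cancel₀ (S.χ_ne 0 S.Γ.zero_mem)
            (by rw [one_mul, ← h3])).symm
          rw [add_neg_cancel, h4] at h2
          exact h2.symm
        exact ⟨1, one_mem _, S.χ (-γ), Algebra.subset_adjoin
          (Or.inl ⟨-γ, ⟨S.Γ.neg_mem hγ, neg_nonneg.2 h0⟩, rfl⟩), S.χ_ne _ (S.Γ.neg_mem hγ),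
          eq_one_div_of_mul_eq_one_left h1⟩
    · exact ⟨S.y i, Algebra.subset_adjoin (Or.inr ⟨i, rfl⟩), 1, one_mem _, one_ne_zero,
        (div_one _).symm⟩
  | algebraMap c => exact ⟨_, S.P.algebraMap_mem c, 1, one_mem _, one_ne_zero, (div_one _).symm⟩
  | add x y _ _ hx hy =>
    obtain ⟨a, ha, b, hb, hb0, rfl⟩ := hx
    obtain ⟨c, hc, e, he, he0, rfl⟩ := hy
    exact ⟨a * e + b * c, add_mem (mul_mem ha he) (mul_mem hb hc), b * e, mul_mem hb he,
      mul_ne_zero hb0 he0, by rw [div_add_div _ _ hb0 he0]⟩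
  | inv x _ hx =>
    obtain ⟨a, ha, b, hb, hb0, rfl⟩ := hx
    by_cases ha0 : a = 0
    · exact ⟨0, zero_mem _, 1, one_mem _, one_ne_zero, by rw [ha0]; simp⟩
    · exact ⟨b, hb, a, ha, ha0, by rw [inv_div]⟩
  | mul x y _ _ hx hy =>
    obtain ⟨a, ha, b, hb, hb0, rfl⟩ := hx
    obtain ⟨c, hc, e, he, he0, rfl⟩ := hy
    exact ⟨a * c, mul_mem ha hc, b * e, mul_mem hb he, mul_ne_zero hb0 he0, by
      rw [div_mul_div_comm]⟩

theorem P_le_K (S : RD k v d) {a : Ω} (ha : a ∈ S.P) : a ∈ S.K := by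
  have h1 : S.P ≤ S.K.toSubalgebra := by
    unfold RD.P
    rw [Algebra.adjoin_le_iff]
    rintro _ (⟨γ, hγ, rfl⟩ | ⟨i, rfl⟩)
    · exact IntermediateField.subset_adjoin k _ (Or.inl ⟨γ, hγ.1, rfl⟩)
    · exact IntermediateField.subset_adjoin k _ (Or.inr ⟨i, rfl⟩)
  exact h1 ha

end

section Rd

variable {k Ω : Type u} [Field k] [Field Ω] [Algebra k Ω] {𝕂 : Type w} [Field 𝕂] [LinearOrder 𝕂]
  [IsStrictOrderedRing 𝕂] {v : OVal 𝕂 Ω} {d : ℕ} (S : RD k v d)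

theorem chi_zero : S.χ 0 = 1 := by
  have h3 := S.χ_add 0 S.Γ.zero_mem 0 S.Γ.zero_mem
  rw [add_zero] at h3
  exact (mul_right_cancel₀ (S.χ_ne 0 S.Γ.zero_mem) (by rw [one_mul, ← h3])).symm

theorem chi_neg {γ : 𝕂} (hγ : γ ∈ S.Γ) : S.χ (-γ) = (S.χ γ)⁻¹ := by
  have h := S.χ_add γ hγ (-γ) (S.Γ.neg_mem hγ)
  rw [add_neg_cancel, chi_zero] at h
  exact eq_inv_of_mul_eq_one_right h.symm

theorem Mono.mul {f g : Ω} (hf : S.Mono f) (hg : S.Mono g) : S.Mono (f * g) := by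
  obtain ⟨f0, f1, f2⟩ := hf
  obtain ⟨g0, g1, g2⟩ := hg
  refine ⟨mul_ne_zero f0 g0, ?_, ?_⟩
  · rw [v.map_mul f0 g0]; exact S.Γ.add_mem f1 g1
  · rw [v.map_mul f0 g0, S.χ_add _ f1 _ g1, mul_div_mul_comm]
    exact mul_mem f2 g2

theorem Mono.inv {f : Ω} (hf : S.Mono f) : S.Mono f⁻¹ := by
  obtain ⟨f0, f1, f2⟩ := hf
  refine ⟨inv_ne_zero f0, ?_, ?_⟩
  · rw [v.map_inv f0]; exact S.Γ.neg_mem f1
  · rw [v.map_inv f0, chi_neg S f1, ← inv_div_inv, inv_inv, inv_inv, ← inv_div]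
    have h1 := (hz_hcl v S.P).inv _ f2 (div_ne_zero f0 (S.χ_ne _ f1)) (by
      rw [v.map_div f0 (S.χ_ne _ f1), S.χ_val _ f1, sub_self])
    rwa [inv_div] at h1 ⊢

/-- A set of generators of `Γ` gives generators of the monomials. -/
theorem chi_ind {G : Finset 𝕂} (hG : AddSubgroup.closure (G : Set 𝕂) = S.Γ) (C : Ω → Prop)
    (h1 : C 1) (hmul : ∀ a b, a ≠ 0 → b ≠ 0 → C a → C b → C (a * b))
    (hinv : ∀ a, a ≠ 0 → C a → C a⁻¹) (hg : ∀ γ ∈ G, C (S.χ |γ|)) : ∀ γ ∈ S.Γ, C (S.χ γ) := by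
  intro γ hγ
  rw [← hG] at hγ
  have hle : ∀ δ, δ ∈ AddSubgroup.closure (G : Set 𝕂) → δ ∈ S.Γ := fun δ hδ => by rwa [hG] at hδ
  induction hγ using AddSubgroup.closure_induction with
  | mem δ hδ =>
    have hδΓ := hle δ (AddSubgroup.subset_closure hδ)
    rcases abs_choice δ with h | h
    · have := hg δ hδ
      rwa [h] at this
    · have h2 := hg δ hδ
      rw [h, chi_neg S hδΓ] at h2
      have h3 := hinv _ (inv_ne_zero (S.χ_ne _ hδΓ)) h2
      rwa [inv_inv] at h3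
  | zero => rw [chi_zero]; exact h1
  | add δ ε hδ hε ihδ ihε =>
    rw [S.χ_add δ (hle δ hδ) ε (hle ε hε)]
    exact hmul _ _ (S.χ_ne _ (hle δ hδ)) (S.χ_ne _ (hle ε hε)) ihδ ihε
  | neg δ hδ ih =>
    rw [chi_neg S (hle δ hδ)]
    exact hinv _ (S.χ_ne _ (hle δ hδ)) ih

end Rd

section Main

variable {k Ω : Type u} [Field k] [Field Ω] [Algebra k Ω] {𝕂 : Type w} [Field 𝕂] [LinearOrder 𝕂]
  [IsStrictOrderedRing 𝕂] {v : OVal 𝕂 Ω} {d : ℕ}

/-- Rational data of a subfield `A` of `Ω`, seen in `Ω`. -/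
noncomputable def push {A : IntermediateField k Ω} (C : RD k (resV v A) d)
    (hfull : ∀ g : Ω, g ≠ 0 → ∃ m : ℕ, 0 < m ∧ (m : 𝕂) * v g ∈ C.Γ) : RD k v d where
  Γ := C.Γ
  fg := C.fg
  full := hfull
  χ := fun γ => (C.χ γ : Ω)
  χ_ne := fun γ hγ => coe_ne (C.χ_ne γ hγ)
  χ_add := fun γ hγ δ hδ => congrArg Subtype.val (C.χ_add γ hγ δ hδ)
  χ_val := fun γ hγ => C.χ_val γ hγ
  y := fun i => (C.y i : Ω)
  y_ne := fun i => coe_ne (C.y_ne i)
  y_pos := fun i => C.y_pos i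

variable {A : IntermediateField k Ω} (C : RD k (resV v A) d)
  (hfull : ∀ g : Ω, g ≠ 0 → ∃ m : ℕ, 0 < m ∧ (m : 𝕂) * v g ∈ C.Γ)

theorem push_P : (push C hfull).P = C.P.map A.val := by
  unfold RD.P
  rw [AlgHom.map_adjoin, Set.image_union, Set.image_image, ← Set.range_comp]
  rfl

/-- The henselization inside `A` lands in the henselization. -/
theorem hz_push (B : Subalgebra k A) : ∀ f ∈ Hz (resV v A) B, (f : Ω) ∈ Hz v (B.map A.val) := by
  have hH := hz_hcl v (B.map A.val)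
  have h1 : Hz (resV v A) B ≤ (Hz v (B.map A.val)).comap A.val := by
    refine hz_le ?_ ⟨?_, ?_⟩
    · intro f hf
      exact le_hz v _ ⟨f, hf, rfl⟩
    · intro a ha ha0 hv
      exact hH.inv _ ha (coe_ne ha0) hv
    · intro P hP hc a ha h0 h1 h2
      change (a : Ω) ∈ Hz v (B.map A.val)
      have hev : (P.map (algebraMap A Ω)).eval (a : Ω) = 0 := by
        change (P.map (algebraMap A Ω)).eval (algebraMap A Ω a) = 0
        rw [eval_map, eval₂_at_apply, h0, map_zero]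
      have hdv : (P.map (algebraMap A Ω)).derivative.eval (a : Ω) =
          ((P.derivative.eval a : A) : Ω) := by
        rw [derivative_map]
        change (P.derivative.map (algebraMap A Ω)).eval (algebraMap A Ω a) =
          algebraMap A Ω (P.derivative.eval a)
        rw [eval_map, eval₂_at_apply]
      refine hH.root _ (hP.map _) (fun i => ?_) _ (ge_res.1 ha) hev ?_ ?_
      · rw [coeff_map]
        exact hc i
      · rw [hdv]; exact coe_ne h1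
      · rw [hdv]; exact h2
  exact fun f hf => h1 hf

theorem frame_le_hz {n : ℕ} (h : Ctx0 k v n) (F : ALLO.FR k v d) : F.R ≤ F.rd.H := by
  classical
  have hPR : F.rd.P ≤ F.R := by
    unfold RD.P
    rw [Algebra.adjoin_le_iff]
    rintro _ (⟨γ, hγ, rfl⟩ | ⟨i, rfl⟩)
    · exact F.χ_mem γ hγ.1 hγ.2
    · exact F.y_mem i
  have hχP : ∀ γ ∈ F.Γ, 0 ≤ γ → F.χ γ ∈ F.rd.P := fun γ hγ h0 =>
    Algebra.subset_adjoin (Or.inl ⟨γ, ⟨hγ, h0⟩, rfl⟩)
  have hyP : ∀ i, F.y i ∈ F.rd.P := fun i => Algebra.subset_adjoin (Or.inr ⟨i, rfl⟩)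
  refine le_hz_of_gen h F.rd.P F.R (fun a ha => F.nonneg a (hPR ha)) hPR F.nonneg ?_ ?_
  · obtain ⟨T, hT⟩ := F.fgen
    have hmono : Algebra.adjoin k ((T : Set Ω) ∪ F.χ '' {γ | γ ∈ F.Γ ∧ 0 ≤ γ}) ≤
        Algebra.adjoin k ((F.rd.P : Set Ω) ∪ T) := by
      rw [Algebra.adjoin_le_iff]
      rintro x (hx | ⟨γ, hγ, rfl⟩)
      · exact Algebra.subset_adjoin (Or.inr hx)
      · exact Algebra.subset_adjoin (Or.inl (hχP γ hγ.1 hγ.2))
    refine ⟨T, fun f hf => ?_, fun f hf => ?_⟩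
    · rw [hT]
      exact ⟨f, Algebra.subset_adjoin (Or.inl hf), 1, one_mem _, one_ne_zero, v.map_one,
        (div_one _).symm⟩
    · rw [hT] at hf
      obtain ⟨a, ha, b, hb, hb0, hvb, hab⟩ := hf
      exact ⟨a, hmono ha, b, hmono hb, hb0, hvb, hab⟩
  · intro f hf hfp
    obtain ⟨γ, hγ, hγ0, a, ha, b, hb, hfe⟩ := F.gen f hf hfp
    rw [hfe]
    refine Submodule.add_mem _ ?_ (Submodule.sum_mem _ fun i _ => ?_)
    · rw [mul_comm]
      have h1 : F.χ γ ∈ {a : Ω | a ∈ F.rd.P ∧ VPos v a} :=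
        ⟨hχP γ hγ hγ0.le, fun _ => by rw [F.χ_val γ hγ]; exact hγ0⟩
      exact Submodule.smul_mem _ (⟨a, ha⟩ : F.R) (Submodule.subset_span h1)
    · rw [mul_comm]
      have h1 : F.y i ∈ {a : Ω | a ∈ F.rd.P ∧ VPos v a} := ⟨hyP i, fun _ => F.y_pos i⟩
      exact Submodule.smul_mem _ (⟨b i, hb i⟩ : F.R) (Submodule.subset_span h1)

end Main

end AmbH54

open AmbH54 in
/-- Row AMB: embedded local uniformization in transcendence degree `r + d` gives `LUsR`. -/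
theorem lusR_of_emb {k Ω : Type u} [Field k] [Field Ω] [Algebra k Ω] {𝕂 : Type w} [Field 𝕂]
    [LinearOrder 𝕂] [IsStrictOrderedRing 𝕂] [IsAlgClosed Ω] {v : OVal 𝕂 Ω} {n r d : ℕ}
    (h : CtxR k v n r) (hr : 0 < r) (hE : ALLO.EmbAll k 𝕂 (r + d)) : LUsR k v d (r + d) := by
  classical
  intro S hS Z hZ
  set A : IntermediateField k Ω := acl S.K with hA
  have hKA : S.K ≤ A := le_acl _
  have hctx : CtxR k (resV v A) (r + d) r := ctxR_acl h S hS
  -- generators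
  obtain ⟨G, hG⟩ := S.fg
  have hGΓ : ∀ γ ∈ G, γ ∈ S.Γ := fun γ hγ => by
    rw [← hG]; exact AddSubgroup.subset_closure hγ
  have habs : ∀ γ ∈ G, |γ| ∈ S.Γ := fun γ hγ => by
    rcases abs_choice γ with h | h <;> rw [h]
    · exact hGΓ γ hγ
    · exact S.Γ.neg_mem (hGΓ γ hγ)
  have hdiv : ∀ z : Ω, ∃ u w : Ω, z ∈ Z → u ∈ S.P ∧ u ≠ 0 ∧ w ∈ S.P ∧ w ≠ 0 ∧ z = u / w := by
    intro z
    by_cases hz : z ∈ Z
    · obtain ⟨u, hu, w, hw, hw0, hzw⟩ := exists_div (hZ z hz).1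
      refine ⟨u, w, fun _ => ⟨hu, ?_, hw, hw0, hzw⟩⟩
      rintro rfl
      exact (hZ z hz).2 (by rw [hzw, zero_div])
    · exact ⟨0, 0, fun h => absurd h hz⟩
  choose u w huw using hdiv
  let T : Finset Ω := G.image (fun γ => S.χ |γ|) ∪ Finset.univ.image S.y ∪ Z.image u ∪ Z.image w
  have hTχ : ∀ γ ∈ G, S.χ |γ| ∈ T := fun γ hγ => by
    simp only [T, Finset.mem_union, Finset.mem_image]
    exact Or.inl (Or.inl (Or.inl ⟨γ, hγ, rfl⟩))
  have hTy : ∀ i, S.y i ∈ T := fun i => by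
    simp only [T, Finset.mem_union, Finset.mem_image]
    exact Or.inl (Or.inl (Or.inr ⟨i, Finset.mem_univ _, rfl⟩))
  have hTu : ∀ z ∈ Z, u z ∈ T := fun z hz => by
    simp only [T, Finset.mem_union, Finset.mem_image]
    exact Or.inl (Or.inr ⟨z, hz, rfl⟩)
  have hTw : ∀ z ∈ Z, w z ∈ T := fun z hz => by
    simp only [T, Finset.mem_union, Finset.mem_image]
    exact Or.inr ⟨z, hz, rfl⟩
  have hTP : ∀ t ∈ T, t ∈ S.P ∧ t ≠ 0 := by
    intro t ht
    simp only [T, Finset.mem_union, Finset.mem_image] at ht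
    rcases ht with ((⟨γ, hγ, rfl⟩ | ⟨i, -, rfl⟩) | ⟨z, hz, rfl⟩) | ⟨z, hz, rfl⟩
    · exact ⟨Algebra.subset_adjoin (Or.inl ⟨_, ⟨habs γ hγ, abs_nonneg _⟩, rfl⟩),
        S.χ_ne _ (habs γ hγ)⟩
    · exact ⟨Algebra.subset_adjoin (Or.inr ⟨i, rfl⟩), S.y_ne i⟩
    · exact ⟨(huw z hz).1, (huw z hz).2.1⟩
    · exact ⟨(huw z hz).2.2.1, (huw z hz).2.2.2.1⟩
  have hTA : ∀ t ∈ T, t ∈ A := fun t ht => hKA (P_le_K S (hTP t ht).1)
  -- `k(T) = S.K`
  have hadjT : IntermediateField.adjoin k (T : Set Ω) = S.K := by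
    refine le_antisymm ?_ ?_
    · rw [IntermediateField.adjoin_le_iff]
      exact fun t ht => P_le_K S (hTP t ht).1
    · unfold RD.K
      rw [IntermediateField.adjoin_le_iff]
      rintro _ (⟨γ, hγ, rfl⟩ | ⟨i, rfl⟩)
      · exact chi_ind S hG (fun a => a ∈ IntermediateField.adjoin k (T : Set Ω))
          (one_mem _) (fun a b _ _ ha hb => mul_mem ha hb) (fun a _ ha => inv_mem ha)
          (fun γ hγ => IntermediateField.subset_adjoin k _ (hTχ γ hγ)) γ hγ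
      · exact IntermediateField.subset_adjoin k _ (hTy i)
  -- inside `A`
  let T' : Finset A := T.attach.image fun t => ⟨t.1, hTA t.1 t.2⟩
  have hT' : ∀ a : A, a ∈ T' ↔ (a : Ω) ∈ T := by
    intro a
    simp only [T', Finset.mem_image, Finset.mem_attach, true_and, Subtype.exists]
    constructor
    · rintro ⟨t, ht, rfl⟩
      exact ht
    · exact fun ha => ⟨a, ha, rfl⟩
  have hT'img : (A.val : A → Ω) '' (T' : Set A) = (T : Set Ω) := by
    ext t
    constructor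
    · rintro ⟨a, ha, rfl⟩
      exact (hT' a).1 ha
    · intro ht
      exact ⟨⟨t, hTA t ht⟩, (hT' _).2 ht, rfl⟩
  let E' : IntermediateField k A := IntermediateField.restrict hKA
  have hE' : ∀ a : A, a ∈ E' ↔ (a : Ω) ∈ S.K := fun a => IntermediateField.mem_restrict hKA a
  have hadj' : IntermediateField.adjoin k (T' : Set A) = E' := by
    have h1 : (IntermediateField.adjoin k (T' : Set A)).map A.val = S.K := by
      rw [IntermediateField.adjoin_map, hT'img, hadjT]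
    ext a
    rw [hE' a, ← h1, IntermediateField.mem_map]
    constructor
    · exact fun ha => ⟨a, ha, rfl⟩
    · rintro ⟨b, hb, hab⟩
      have : b = a := Subtype.ext hab
      rwa [← this]
  have halg' : ∀ g : A, IsAlgebraic E' g := by
    intro g
    obtain ⟨P, hP0, hPg⟩ := mem_acl.1 g.2
    let φ : S.K →+* E' :=
      { toFun := fun a => ⟨⟨(a : Ω), hKA a.2⟩, (hE' _).2 a.2⟩
        map_one' := rfl
        map_mul' := fun _ _ => rfl
        map_zero' := rfl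
        map_add' := fun _ _ => rfl }
    have hφ : Function.Injective φ := fun a b hab =>
      Subtype.ext (congrArg (fun t : E' => ((t : A) : Ω)) hab)
    refine ⟨P.map φ, (Polynomial.map_ne_zero_iff hφ).2 hP0, ?_⟩
    apply Subtype.ext
    have h1 : ((aeval g (P.map φ) : A) : Ω) = aeval (g : Ω) P := by
      change algebraMap A Ω (aeval g (P.map φ)) = _
      rw [aeval_def, eval₂_map, aeval_def, hom_eval₂]
      rfl
    rw [h1, hPg]
    rfl
  have := isAlgClosed_acl S.K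
  obtain ⟨C, hCfr, hCm, hCden⟩ := hE A (resV v A) r d hctx hr rfl E' ⟨T', hadj'.symm⟩ halg' T'
    (fun z hz => ne_of_coe (hTP _ ((hT' z).1 hz)).2) hadj'
  -- monomials of `C`
  have hCχ : ∀ γ (hγ : γ ∈ G), C.Mono (⟨S.χ |γ|, hTA _ (hTχ γ hγ)⟩ : A) := fun γ hγ =>
    hCm _ ((hT' _).2 (hTχ γ hγ))
  have hΓle : ∀ γ ∈ S.Γ, γ ∈ C.Γ := by
    intro γ hγ
    rw [← hG] at hγ
    induction hγ using AddSubgroup.closure_induction with
    | mem δ hδ =>
      have h1 := (hCχ δ hδ).2.1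
      have h2 : resV v A (⟨S.χ |δ|, hTA _ (hTχ δ hδ)⟩ : A) = |δ| := S.χ_val _ (habs δ hδ)
      rw [h2] at h1
      rcases abs_choice δ with h | h
      · rwa [h] at h1
      · rw [h] at h1
        have := C.Γ.neg_mem h1
        rwa [neg_neg] at this
    | zero => exact C.Γ.zero_mem
    | add δ ε _ _ ihδ ihε => exact C.Γ.add_mem ihδ ihε
    | neg δ _ ih => exact C.Γ.neg_mem ih
  have hfull : ∀ g : Ω, g ≠ 0 → ∃ m : ℕ, 0 < m ∧ (m : 𝕂) * v g ∈ C.Γ := fun g hg => by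
    obtain ⟨m, hm, hmΓ⟩ := S.full g hg
    exact ⟨m, hm, hΓle _ hmΓ⟩
  let S' : RD k v d := push C.rd hfull
  have hRH : ∀ f ∈ C.R, (f : Ω) ∈ S'.H := fun f hf => by
    have h1 := hz_push C.rd.P f (frame_le_hz hctx.toCtx0 C hf)
    have h2 : S'.P = C.rd.P.map A.val := push_P C.rd hfull
    change (f : Ω) ∈ Hz v S'.P
    rwa [h2]
  have hM : ∀ a : A, C.Mono a → S'.Mono (a : Ω) := fun a ha =>
    ⟨coe_ne ha.1, ha.2.1, hRH _ ha.2.2.1⟩
  have hone : S'.Mono (1 : Ω) := by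
    refine ⟨one_ne_zero, ?_, ?_⟩
    · rw [v.map_one]; exact S'.Γ.zero_mem
    · rw [v.map_one, chi_zero, div_one]; exact one_mem _
  have hχM : ∀ γ ∈ S.Γ, S'.Mono (S.χ γ) :=
    chi_ind S hG (fun a => S'.Mono a) hone (fun a b _ _ ha hb => Mono.mul S' ha hb)
      (fun a _ ha => Mono.inv S' ha) fun γ hγ => hM _ (hCχ γ hγ)
  have hadjP : ∀ a ∈ Algebra.adjoin k (T' : Set A), (a : Ω) ∈ S.P := by
    intro a ha
    have h1 : (a : Ω) ∈ (Algebra.adjoin k (T' : Set A)).map A.val := ⟨a, ha, rfl⟩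
    rw [AlgHom.map_adjoin, hT'img] at h1
    have h2 : Algebra.adjoin k (T : Set Ω) ≤ S.P := by
      rw [Algebra.adjoin_le_iff]
      exact fun t ht => (hTP t ht).1
    exact h2 h1
  refine ⟨S', ⟨hΓle, fun γ hγ => ?_, fun i => ?_, fun g hg => ?_⟩, fun z hz => ?_⟩
  · have h1 := (hχM γ hγ).2.2
    rwa [S.χ_val γ hγ] at h1
  · have h1 := hM _ (hCm (⟨S.y i, hTA _ (hTy i)⟩ : A) ((hT' _).2 (hTy i)))
    have h2 : S.y i = S.y i / S'.χ (v (S.y i)) * S'.χ (v (S.y i)) := by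
      rw [div_mul_cancel₀ _ (S'.χ_ne _ h1.2.1)]
    rw [h2]
    refine mul_mem h1.2.2 (le_hz v _ (Algebra.subset_adjoin (Or.inl ⟨_, ⟨h1.2.1, ?_⟩, rfl⟩)))
    exact (S.y_pos i).le
  · rw [show S'.P = C.rd.P.map A.val from push_P C.rd hfull] at hg
    obtain ⟨g', hg', rfl⟩ := hg
    have h1 : g' ∈ C.R := by
      have h2 : C.rd.P ≤ C.R := by
        unfold RD.P
        rw [Algebra.adjoin_le_iff]
        rintro _ (⟨γ, hγ, rfl⟩ | ⟨i, rfl⟩)
        · exact C.χ_mem γ hγ.1 hγ.2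
        · exact C.y_mem i
      exact h2 hg'
    obtain ⟨a, ha, b, hb, hbm, hab⟩ := hCden g' h1
    refine ⟨(a : Ω), hadjP a ha, (b : Ω), hadjP b hb, hM b hbm, ?_⟩
    rw [hab]
    rfl
  · obtain ⟨-, -, -, -, hzw⟩ := huw z hz
    rw [hzw, div_eq_mul_inv]
    refine Mono.mul S' (hM (⟨u z, hTA _ (hTu z hz)⟩ : A) (hCm _ ((hT' _).2 (hTu z hz)))) ?_
    exact Mono.inv S' (hM (⟨w z, hTA _ (hTw z hz)⟩ : A) (hCm _ ((hT' _).2 (hTw z hz))))

end Pool.Agent.ALLY
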