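import Pool.Agent.Lib.ALLY.Defs

/-!
# Block Y in any rank, row AMB, part 1: the algebraic closure of `S.K` in `Ω`
-/

set_option autoImplicit false

open Polynomial

namespace Pool.Agent.ALLY

open Pool.Agent.TAO (OVal VPos Ctx0 CtxR)

universe u w

section

variable {k Ω : Type u} [Field k] [Field Ω] [Algebra k Ω] {𝕂 : Type w} [Field 𝕂] [LinearOrder 𝕂]
  [IsStrictOrderedRing 𝕂]

/-- The algebraic closure of `L` in `Ω`, over `k`. -/
noncomputable def acl (L : IntermediateField k Ω) : IntermediateField k Ω :=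
  (algebraicClosure L Ω).restrictScalars k

theorem mem_acl {L : IntermediateField k Ω} {a : Ω} : a ∈ acl L ↔ IsAlgebraic L a := by
  unfold acl
  rw [IntermediateField.mem_restrictScalars, mem_algebraicClosure_iff]

theorem le_acl (L : IntermediateField k Ω) : L ≤ acl L := fun a ha =>
  mem_acl.2 (isAlgebraic_algebraMap (⟨a, ha⟩ : L))

theorem isAlgClosed_acl [IsAlgClosed Ω] (L : IntermediateField k Ω) : IsAlgClosed (acl L) :=
  (inferInstance : IsAlgClosure L (algebraicClosure L Ω)).isAlgClosed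

theorem trdeg_acl (L : IntermediateField k Ω) :
    Algebra.trdeg k (acl L) = Algebra.trdeg k L := by
  have h1 : Algebra.IsAlgebraic L (algebraicClosure L Ω) := inferInstance
  have h2 := trdeg_add_eq k L (A := algebraicClosure L Ω)
  have h3 : Algebra.trdeg L (algebraicClosure L Ω) = 0 := trdeg_eq_zero
  rw [h3, add_zero] at h2
  exact h2.symm

/-- The restriction of a valuation. -/
def resV (v : OVal 𝕂 Ω) (L : IntermediateField k Ω) : OVal 𝕂 L where
  toFun := fun x => v (x : Ω)
  map_mul' := fun _ _ hx hy => v.map_mul (fun h => hx (Subtype.ext h)) fun h => hy (Subtype.ext h)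
  map_add' := fun _ _ hx hy hxy => v.map_add (fun h => hx (Subtype.ext h))
    (fun h => hy (Subtype.ext h)) fun h => hxy (Subtype.ext h)

variable {v : OVal 𝕂 Ω} {L : IntermediateField k Ω}

theorem resV_apply (x : L) : resV v L x = v (x : Ω) := rfl

theorem coe_ne {x : L} (h : x ≠ 0) : (x : Ω) ≠ 0 := fun h' => h (Subtype.ext h')

theorem ne_of_coe {x : L} (h : (x : Ω) ≠ 0) : x ≠ 0 := fun h' => h (by rw [h']; rfl)

theorem vpos_res {x : L} : VPos (resV v L) x ↔ VPos v (x : Ω) :=
  ⟨fun h h0 => h (ne_of_coe h0), fun h h0 => h (coe_ne h0)⟩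

theorem ge_res {x : L} {c : 𝕂} : (resV v L).Ge c x ↔ v.Ge c (x : Ω) :=
  ⟨fun h h0 => h (ne_of_coe h0), fun h h0 => h (coe_ne h0)⟩

/-- The setting passes to the algebraic closure of `S.K`. -/
theorem ctxR_acl {N n r d : ℕ} (h : CtxR k v N r) (S : RD k v d)
    (hn : Algebra.trdeg k S.K = n) : CtxR k (resV v (acl S.K)) n r := by
  have hχ : ∀ γ ∈ S.Γ, S.χ γ ∈ acl S.K := fun γ hγ =>
    le_acl _ (IntermediateField.subset_adjoin k _ (Or.inl ⟨γ, hγ, rfl⟩))
  obtain ⟨X, hX0, hXi, hXs⟩ := h.rank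
  choose m hm hmΓ using fun i => S.full (X i) (hX0 i)
  refine
    { triv := fun c hc => h.triv c hc
      res := ?_
      trdeg := by rw [trdeg_acl, hn]
      rank := ?_ }
  · intro g hg hv
    obtain ⟨c, hc, hp⟩ := h.res (g : Ω) (coe_ne hg) hv
    exact ⟨c, hc, vpos_res.2 hp⟩
  · let X' : Fin r → acl S.K := fun i => ⟨S.χ ((m i : 𝕂) * v (X i)), hχ _ (hmΓ i)⟩
    have hX' : ∀ i, resV v (acl S.K) (X' i) = (m i : ℚ) • v (X i) := by
      intro i
      change v (S.χ ((m i : 𝕂) * v (X i))) = _
      rw [S.χ_val _ (hmΓ i), Rat.smul_def]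
      push_cast
      rfl
    have hspan : Submodule.span ℚ (Set.range fun i => v (X i)) ≤
        Submodule.span ℚ (Set.range fun i => resV v (acl S.K) (X' i)) := by
      rw [Submodule.span_le]
      rintro _ ⟨i, rfl⟩
      have h1 : v (X i) = (m i : ℚ)⁻¹ • resV v (acl S.K) (X' i) := by
        rw [hX' i, smul_smul, inv_mul_cancel₀ (by exact_mod_cast (hm i).ne'), one_smul]
      have h2 : v (X i) ∈ Submodule.span ℚ (Set.range fun i => resV v (acl S.K) (X' i)) := by
        rw [h1]
        exact Submodule.smul_mem _ _ (Submodule.subset_span ⟨i, rfl⟩)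
      exact h2
    refine ⟨X', fun i => ne_of_coe (S.χ_ne _ (hmΓ i)), ?_, ?_⟩
    · have h2 := hXi.units_smul fun i => Units.mk0 (m i : ℚ) (by exact_mod_cast (hm i).ne')
      have h3 : (fun i => resV v (acl S.K) (X' i)) =
          (fun i => Units.mk0 (m i : ℚ) (by exact_mod_cast (hm i).ne')) • fun i => v (X i) := by
        funext i
        rw [hX' i]
        rfl
      rw [h3]
      exact h2
    · intro g hg
      exact hspan (hXs (g : Ω) (coe_ne hg))

end

end Pool.Agent.ALLY
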